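import Pool.Agent.Lib_helper52.YG.P.RV

/-!
# The strengthened submodularity inequality for entropy powers: two of the three pivots

The hypotheses are those of the frozen statement `S19397`.
-/

set_option autoImplicit false

open MeasureTheory ProbabilityTheory

namespace Pool.Agent.Results.MP_70a3e9_pr.TwoPivots

/-- The inequality of the question with common summand `C` and a factor `κ`:
`κ N(A+B+C) N(C) + N(A) N(B) ≤ N(A+C) N(B+C)`; the question is whether it holds with `κ = 1`. -/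
def Piv {G : Type} [Add G] (N : G → ℝ) (κ : ℝ) (A B C : G) : Prop :=
  κ * (N (A + B + C) * N C) + N A * N B ≤ N (A + C) * N (B + C)

/-- At least two of the three inequalities (with common summand `C`, `A`, `B`) hold. -/
def TwoOfThree {G : Type} [Add G] (N : G → ℝ) (A B C : G) : Prop :=
  (Piv N 1 A B C ∨ Piv N 1 B C A) ∧ (Piv N 1 A B C ∨ Piv N 1 A C B) ∧
    (Piv N 1 B C A ∨ Piv N 1 A C B)

/-- `N(C) N(A+B) + 2 N(A) N(B) ≤ N(A) N(B+C) + N(B) N(A+C)`. -/
def Narrow {G : Type} [Add G] (N : G → ℝ) (A B C : G) : Prop :=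
  N C * N (A + B) + 2 * (N A * N B) ≤ N A * N (B + C) + N B * N (A + C)

/-- `N(A) N(B) N(C) N(A+B+C) ≤ a b + b c + c a` whenever `N(A) N(B+C) = b + c`,
`N(B) N(A+C) = a + c`, `N(C) N(A+B) = a + b` with positive `a, b, c`. -/
def Surface {G : Type} [Add G] (N : G → ℝ) (A B C : G) : Prop :=
  ∀ a b c : ℝ, 0 < a → 0 < b → 0 < c → N A * N (B + C) = b + c →
    N B * N (A + C) = a + c → N C * N (A + B) = a + b →
    N A * N B * N C * N (A + B + C) ≤ a * b + b * c + c * a

end Pool.Agent.Results.MP_70a3e9_pr.TwoPivots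

open Pool.Agent.Results.MP_70a3e9_pr.TwoPivots in
/-- Let `X, Y, Z` be independent random vectors in `ℝ^d` with densities such that
`X, Y, Z, X + Z, Y + Z, X + Y + Z` have finite differential entropies, and let
`N(W) = exp (2 h(W) / d)`. Say that `Z` is a good pivot if
`N(X+Y+Z) N(Z) + N(X) N(Y) ≤ N(X+Z) N(Y+Z)`. Then
* at least two of `X, Y, Z` are good pivots;
* `Z` is a good pivot if `N(Z) N(X+Y) + 2 N(X) N(Y) ≤ N(X) N(Y+Z) + N(Y) N(X+Z)`;
* `Z` is a good pivot if `X` and `Z` (or `Y` and `Z`) are identically distributed;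
* `N(X+Y+Z) N(Z) / 2 + N(X) N(Y) ≤ N(X+Z) N(Y+Z)` in every case;
* all this comes from the inequality `N(X) N(Y) N(Z) N(X+Y+Z) ≤ a b + b c + c a` if
  `N(X) N(Y+Z) = b + c`, `N(Y) N(X+Z) = a + c`, `N(Z) N(X+Y) = a + b` with positive `a, b, c`. -/
theorem Pool.Agent.Results.MP_70a3e9_pr.TwoPivots.result :
    ∀ (d : ℕ), 0 < d →
    ∀ (Ω : Type) [MeasurableSpace Ω] (P : Measure Ω) [IsProbabilityMeasure P]
      (X Y Z : Ω → EuclideanSpace ℝ (Fin d)),
      Measurable X → Measurable Y → Measurable Z →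
      iIndepFun ![X, Y, Z] P →
      P.map X ≪ volume → P.map Y ≪ volume → P.map Z ≪ volume →
      ∀ N : (Ω → EuclideanSpace ℝ (Fin d)) → ℝ,
        (∀ W : Ω → EuclideanSpace ℝ (Fin d), N W = Real.exp ((2 / (d : ℝ)) *
          ∫ x, Real.negMulLog (((P.map W).rnDeriv volume x).toReal))) →
        (∀ W ∈ [X, Y, Z, X + Z, Y + Z, X + Y + Z],
          Integrable (fun x => Real.negMulLog (((P.map W).rnDeriv volume x).toReal)) volume) →
        TwoOfThree N X Y Z ∧ (Narrow N X Y Z → Piv N 1 X Y Z) ∧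
        (IdentDistrib X Z P P ∨ IdentDistrib Y Z P P → Piv N 1 X Y Z) ∧
        Piv N (1 / 2) X Y Z ∧ Surface N X Y Z := by
  intro d hd Ω _ P _ X Y Z hX hY hZ hI aX aY aZ N hN hint
  obtain ⟨⟨h1, h2, h3⟩, h4, h5, h6, h7⟩ :=
    Pool.Agent.YG.yg_final d hd Ω P X Y Z hX hY hZ hI aX aY aZ N hN hint
  have e1 : Y + Z + X = X + Y + Z := by abel
  have e2 : Y + X = X + Y := by abel
  have e3 : Z + X = X + Z := by abel
  have e4 : X + Z + Y = X + Y + Z := by abel
  have e5 : Z + Y = Y + Z := by abel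
  have p1 : N (X + Y + Z) * N Z + N X * N Y ≤ N (X + Z) * N (Y + Z) → Piv N 1 X Y Z := by
    intro h
    unfold Piv
    rw [one_mul]
    exact h
  have p2 : N (X + Y + Z) * N X + N Y * N Z ≤ N (X + Y) * N (X + Z) → Piv N 1 Y Z X := by
    intro h
    unfold Piv
    rw [one_mul, e1, e2, e3]
    exact h
  have p3 : N (X + Y + Z) * N Y + N X * N Z ≤ N (X + Y) * N (Y + Z) → Piv N 1 X Z Y := by
    intro h
    unfold Piv
    rw [one_mul, e4, e5]
    exact h
  refine ⟨⟨h1.imp p1 p2, h2.imp p1 p3, h3.imp p2 p3⟩, fun h => p1 (h4 h), fun h => p1 (h5 h),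
    h6, h7⟩
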